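import Mathlib

namespace Pool.Agent.Results.MP_3a21c3_co.Cube

open Set

abbrev E := Fin 3 → ℝ

noncomputable def dim (S : Set E) : ℕ := Module.finrank ℝ (vectorSpan ℝ S)

def IsPolyhedron (P : Set E) : Prop := (∃ s : Set E, s.Finite ∧ P = convexHull ℝ s) ∧ (interior P).Nonempty
def IsFace (P F : Set E) : Prop := IsExposed ℝ P F ∧ dim F = 2
def IsEdge (X e : Set E) : Prop := IsExposed ℝ X e ∧ dim e = 1
def IsPolygon (B : Set E) : Prop := (∃ s : Set E, s.Finite ∧ B = convexHull ℝ s) ∧ dim B = 2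
def IsPyramid (Q : Set E) : Prop := ∃ B a, IsPolygon B ∧ a ∉ affineSpan ℝ B ∧ Q = convexHull ℝ (insert a B)
def IsGDome (G X : Set E) : Prop := IsPolyhedron G ∧ IsFace G X ∧ ∀ F, IsFace G F → F ≠ X →
  (∃ e, IsEdge F e ∧ IsEdge X e) ∨ ∃ v, v ∈ F.extremePoints ℝ ∧ v ∈ X.extremePoints ℝ

/-- one admissible cut by the plane `l = c`, with the interior of `D` on the side `l < c` -/
def Step (X D P P' : Set E) : Prop := ∃ (l : E →ₗ[ℝ] ℝ) (c : ℝ), l ≠ 0 ∧ (∃ e, IsEdge X e ∧ ∀ x ∈ e, l x = c) ∧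
  (∀ x ∈ interior D, l x < c) ∧ IsPyramid (P ∩ {x | c ≤ l x}) ∧ P' = closure (P \ (P ∩ {x | c ≤ l x}))

def P : Set E := {x | ∀ k, x k ∈ Icc (0 : ℝ) 1}
def X : Set E := {x | x ∈ P ∧ x 2 = 0}
def X0 : Set E := univ.pi ![{0, 1}, {0, 1}, {0}]
noncomputable def ap : E := fun _ => 1 / 2
def D : Set E := convexHull ℝ (insert ap X0)

theorem lin (n : E →ₗ[ℝ] ℝ) (x : E) : n x = x 0 * n ![1, 0, 0] + x 1 * n ![0, 1, 0] + x 2 * n ![0, 0, 1] := by
  have : x = x 0 • ![1, 0, 0] + x 1 • ![0, 1, 0] + x 2 • ![0, 0, 1] := by ext k; fin_cases k <;> simp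
  conv_lhs => rw [this]
  simp only [map_add, map_smul, smul_eq_mul]

theorem lin0 (n : E →ₗ[ℝ] ℝ) (h0 : n ![1, 0, 0] = 0) (h1 : n ![0, 1, 0] = 0) (h2 : n ![0, 0, 1] = 0) : n = 0 := by
  refine LinearMap.ext fun x => ?_
  rw [lin, h0, h1, h2]; simp

theorem dim_ker (n : E →ₗ[ℝ] ℝ) (h : n ≠ 0) : Module.finrank ℝ (LinearMap.ker n) = 2 := by
  have := Module.Dual.finrank_ker_add_one_of_ne_zero h
  simp at this; omega

theorem vs_le (S : Set E) (n : E →ₗ[ℝ] ℝ) (c : ℝ) (h : ∀ x ∈ S, n x = c) : vectorSpan ℝ S ≤ LinearMap.ker n := by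
  rw [vectorSpan_def, Submodule.span_le]
  rintro _ ⟨x, hx, y, hy, rfl⟩
  simp [h x hx, h y hy]

theorem dim_sub (S : Set E) (a : E) (h : S ⊆ {a}) : dim S = 0 := by
  have : vectorSpan ℝ S ≤ ⊥ := by rw [← vectorSpan_singleton ℝ a]; exact vectorSpan_mono ℝ h
  rw [dim, le_bot_iff.1 this]; simp

theorem ex_fun (S : Set E) (h : vectorSpan ℝ S ≠ ⊤) : ∃ n : E →ₗ[ℝ] ℝ, n ≠ 0 ∧ ∀ x ∈ S, ∀ y ∈ S, n x = n y := by
  obtain ⟨n, h1, h2⟩ := Submodule.exists_le_ker_of_lt_top _ (lt_top_iff_ne_top.2 h)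
  refine ⟨n, h1, fun x hx y hy => ?_⟩
  have := h2 (vsub_mem_vectorSpan ℝ hx hy)
  simpa [sub_eq_zero] using this

theorem flat (Q : Set E) (n : E →ₗ[ℝ] ℝ) (hn : n ≠ 0) (c : ℝ) (h : ∀ x ∈ Q, n x = c) : ¬ IsPyramid Q := by
  rintro ⟨B, a, ⟨-, hB⟩, ha, rfl⟩
  have hs := subset_convexHull ℝ (insert a B)
  have h1 := vs_le B n c fun x hx => h x (hs (mem_insert_of_mem _ hx))
  have h2 : vectorSpan ℝ B = LinearMap.ker n := Submodule.eq_of_le_of_finrank_eq h1 (by rw [dim_ker n hn]; exact hB)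
  obtain ⟨b, hb⟩ : B.Nonempty := by
    by_contra hne
    rw [dim_sub B a (by simp [not_nonempty_iff_eq_empty.1 hne])] at hB; omega
  apply ha
  have : a - b ∈ (affineSpan ℝ B).direction := by
    rw [direction_affineSpan, h2]; simp [h a (hs (mem_insert _ _)), h b (hs (mem_insert_of_mem _ hb))]
  simpa using AffineSubspace.vadd_mem_of_mem_direction this (subset_affineSpan ℝ B hb)

theorem core (Q : Set E) (V : Set E) (h1 : V ⊆ Q.extremePoints ℝ)
    (h2 : ∀ (n : E →ₗ[ℝ] ℝ) (a : E), (∀ x ∈ V, x ≠ a → ∀ y ∈ V, y ≠ a → n x = n y) → n = 0) : ¬ IsPyramid Q := by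
  rintro ⟨B, a, ⟨-, hB⟩, -, rfl⟩
  obtain ⟨n, hn, h⟩ := ex_fun B (fun ht => by rw [dim, ht] at hB; simp at hB)
  exact hn (h2 n a fun x hx xa y hy ya =>
    h x ((extremePoints_convexHull_subset (h1 hx)).resolve_left xa) y
      ((extremePoints_convexHull_subset (h1 hy)).resolve_left ya))

theorem comb {a b u w t : ℝ} (ha : 0 < a) (hb : 0 < b) (hab : a + b = 1) (h : a * u + b * w = t)
    (h' : (u ≤ t ∧ w ≤ t) ∨ (t ≤ u ∧ t ≤ w)) : u = t := by
  have e : a * (u - t) + b * (w - t) = 0 := by linear_combination h - t * hab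
  rcases h' with ⟨h1, h2⟩ | ⟨h1, h2⟩ <;> nlinarith

theorem ext01 (v : E) (h : ∀ k, v k = 0 ∨ v k = 1) : v ∈ P.extremePoints ℝ := by
  refine mem_extremePoints_iff_left.2 ⟨fun k => by rcases h k with h | h <;> simp [h], ?_⟩
  rintro x hx y hy ⟨a, b, ha, hb, hab, e⟩
  funext k
  refine comb ha hb hab (congrFun e k) ?_
  rcases h k with h | h <;> rw [h]
  · exact Or.inr ⟨(hx k).1, (hy k).1⟩
  · exact Or.inl ⟨(hx k).2, (hy k).2⟩

theorem nopyr (i j : Fin 3) (hij : (i = 0 ∧ j = 1) ∨ (i = 1 ∧ j = 0)) (s : ℝ) (hs : s = 0 ∨ s = 1) (p r : ℝ)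
    (h0 : ¬ (p = 0 ∧ r = 0)) (h1 : p * (1 - 2 * s) ≤ 0) (h2 : p * (1 - 2 * s) + r ≤ 0) :
    ¬ IsPyramid (P ∩ {x | 0 ≤ p * (x i - s) + r * x 2}) := by
  have hneg : ∀ x ∈ P, p * (x i - s) ≤ 0 := fun x hx => by
    have := hx i
    rcases hs with rfl | rfl <;> nlinarith [this.1, this.2]
  by_cases hr : r ≤ 0
  · by_cases hp : p = 0
    · refine flat _ (LinearMap.proj 2) (fun h => by simpa using LinearMap.congr_fun h ![0, 0, 1]) 0 ?_
      rintro x ⟨hx, hx'⟩
      have hr' : r < 0 := lt_of_le_of_ne hr fun h => h0 ⟨hp, h⟩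
      have := hneg x hx
      have h3 := (hx 2).1
      simp only [mem_ofPred_eq] at hx'
      show x 2 = 0
      nlinarith
    · refine flat _ (LinearMap.proj i) (fun h => by simpa using LinearMap.congr_fun h (fun _ => 1)) s ?_
      rintro x ⟨hx, hx'⟩
      have := hneg x hx
      have h3 := mul_nonpos_of_nonpos_of_nonneg hr (hx 2).1
      simp only [mem_ofPred_eq] at hx'
      have : p * (x i - s) = 0 := by linarith
      exact sub_eq_zero.1 ((mul_eq_zero.1 this).resolve_left hp)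
  push Not at hr
  have hp : p ≠ 0 := by rintro rfl; simp at h2; linarith
  obtain ⟨t, ht⟩ : ∃ t, p * (t - s) + r = 0 := ⟨s - r / p, by field_simp; ring⟩
  have hts : t ≠ s := by rintro rfl; simp at ht; linarith
  have ht01 : t ∈ Icc (0 : ℝ) 1 := by
    rcases hs with rfl | rfl <;> constructor <;> nlinarith
  let pt : ℝ → ℝ → ℝ → E := fun u w z k => if k = i then u else if k = j then w else z
  have pi : ∀ u w z, pt u w z i = u := fun u w z => by simp [pt]
  have pj : ∀ u w z, pt u w z j = w := fun u w z => by rcases hij with ⟨rfl, rfl⟩ | ⟨rfl, rfl⟩ <;> simp [pt]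
  have p2 : ∀ u w z, pt u w z 2 = z := fun u w z => by rcases hij with ⟨rfl, rfl⟩ | ⟨rfl, rfl⟩ <;> simp [pt]
  have hk : ∀ k, k = i ∨ k = j ∨ k = 2 := fun k => by
    rcases hij with ⟨rfl, rfl⟩ | ⟨rfl, rfl⟩ <;> fin_cases k <;> simp
  have e1 : ∀ w z, (w = 0 ∨ w = 1) → (z = 0 ∨ z = 1) →
      pt s w z ∈ (P ∩ {x | 0 ≤ p * (x i - s) + r * x 2}).extremePoints ℝ := by
    intro w z hw hz
    have := ext01 (pt s w z) fun k => by rcases hk k with rfl | rfl | rfl <;> simp only [pi, pj, p2] <;> assumption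
    refine inter_extremePoints_subset_extremePoints_of_subset inter_subset_left ⟨⟨this.1, ?_⟩, this⟩
    simp only [mem_ofPred_eq, pi, p2]
    rcases hz with rfl | rfl <;> simp [hr.le]
  have e2 : ∀ w, (w = 0 ∨ w = 1) → pt t w 1 ∈ (P ∩ {x | 0 ≤ p * (x i - s) + r * x 2}).extremePoints ℝ := by
    intro w hw
    refine mem_extremePoints_iff_left.2 ⟨⟨fun k => ?_, by simp only [mem_ofPred_eq, pi, p2]; linarith⟩, ?_⟩
    · rcases hk k with rfl | rfl | rfl <;> simp only [pi, pj, p2]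
      · exact ht01
      · rcases hw with rfl | rfl <;> simp
      · simp
    rintro x ⟨hx, hx'⟩ y ⟨hy, hy'⟩ ⟨a, b, ha, hb, hab, e⟩
    simp only [mem_ofPred_eq] at hx' hy'
    funext k
    refine comb ha hb hab (congrFun e k) ?_
    rcases hk k with rfl | rfl | rfl <;> simp only [pi, pj, p2]
    · have q1 : 0 ≤ p * (x k - t) := by nlinarith [(hx 2).2]
      have q2 : 0 ≤ p * (y k - t) := by nlinarith [(hy 2).2]
      rcases lt_or_gt_of_ne hp with h | h
      · left; constructor <;> nlinarith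
      · right; constructor <;> nlinarith
    · rcases hw with rfl | rfl
      · exact Or.inr ⟨(hx k).1, (hy k).1⟩
      · exact Or.inl ⟨(hx k).2, (hy k).2⟩
    · exact Or.inl ⟨(hx 2).2, (hy 2).2⟩
  refine core _ {pt s 0 0, pt s 0 1, pt t 0 1, pt s 1 0, pt s 1 1, pt t 1 1} ?_ ?_
  · intro x hx
    simp only [mem_insert_iff, mem_singleton_iff] at hx
    rcases hx with rfl | rfl | rfl | rfl | rfl | rfl <;> first | exact e1 _ _ (by simp) (by simp) | exact e2 _ (by simp)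
  · intro n a h
    obtain ⟨A, B, C, hn, hz⟩ : ∃ A B C : ℝ, (∀ u w z, n (pt u w z) = u * A + w * B + z * C) ∧
        (A = 0 → B = 0 → C = 0 → n = 0) := by
      rcases hij with ⟨rfl, rfl⟩ | ⟨rfl, rfl⟩
      · exact ⟨_, _, _, fun u w z => by rw [lin, pi, pj, p2], lin0 n⟩
      · exact ⟨n ![0, 1, 0], n ![1, 0, 0], n ![0, 0, 1], fun u w z => by rw [lin, pi, pj, p2]; ring,
          fun a b c => lin0 n b a c⟩
    have key : ∀ w w' : ℝ, w ≠ w' → a j ≠ w → (∀ x ∈ ({pt s w 0, pt s w 1, pt t w 1, pt s w' 0, pt s w' 1} : Set E),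
        x ≠ a → ∀ y ∈ ({pt s w 0, pt s w 1, pt t w 1, pt s w' 0, pt s w' 1} : Set E), y ≠ a → n x = n y) → n = 0 := by
      intro w w' hw ha h
      have na : ∀ u z, pt u w z ≠ a := fun u z e => ha (by rw [← e, pj])
      have q1 := h (pt s w 0) (by simp) (na _ _) (pt s w 1) (by simp) (na _ _)
      have q2 := h (pt s w 1) (by simp) (na _ _) (pt t w 1) (by simp) (na _ _)
      rw [hn, hn] at q1 q2
      have hC : C = 0 := by linarith
      have hA : A = 0 := mul_left_cancel₀ (sub_ne_zero.2 hts) (by linarith)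
      refine hz hA (mul_left_cancel₀ (sub_ne_zero.2 hw) ?_) hC
      by_cases h3 : pt s w' 0 = a
      · have q3 := h (pt s w 0) (by simp) (na _ _) (pt s w' 1) (by simp) (fun e => by
          have := congrFun (h3.trans e.symm) 2
          simp [p2] at this)
        rw [hn, hn, hC] at q3; linarith
      · have q3 := h (pt s w 0) (by simp) (na _ _) (pt s w' 0) (by simp) h3
        rw [hn, hn] at q3; linarith
    by_cases ha : a j = 0
    · refine key 1 0 (by simp) (by simp [ha]) fun x hx xa y hy ya => h x ?_ xa y ?_ ya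
      · rcases hx with h | h | h | h | h <;> rw [h] <;> simp only [mem_insert_iff, mem_singleton_iff, true_or, or_true]
      · rcases hy with h | h | h | h | h <;> rw [h] <;> simp only [mem_insert_iff, mem_singleton_iff, true_or, or_true]
    · refine key 0 1 (by simp) ha fun x hx xa y hy ya => h x ?_ xa y ?_ ya
      · rcases hx with h | h | h | h | h <;> rw [h] <;> simp only [mem_insert_iff, mem_singleton_iff, true_or, or_true]
      · rcases hy with h | h | h | h | h <;> rw [h] <;> simp only [mem_insert_iff, mem_singleton_iff, true_or, or_true]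

theorem P_eq : P = convexHull ℝ (univ.pi fun _ : Fin 3 => ({0, 1} : Set ℝ)) := by
  rw [convexHull_pi]; ext x; simp only [P, mem_ofPred_eq, mem_pi, mem_univ, true_imp_iff, convexHull_pair,
    segment_eq_Icc (zero_le_one' ℝ)]

theorem X_eq : X = convexHull ℝ X0 := by
  rw [X0, convexHull_pi]; ext x
  simp only [X, P, mem_ofPred_eq, mem_pi, mem_univ, true_imp_iff, Fin.forall_fin_succ]
  simp [segment_eq_Icc]
  constructor
  · tauto
  · rintro ⟨h1, h2, h⟩; simp [h, h1, h2]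

theorem X0_fin : X0.Finite := Set.Finite.pi fun i => by fin_cases i <;> simp

theorem X0_01 {v : E} (hv : v ∈ X0) (k : Fin 3) : v k = 0 ∨ v k = 1 := by
  have := hv k (mem_univ _)
  fin_cases k <;> simp at this ⊢ <;> tauto

theorem XD : X ⊆ D := by rw [X_eq]; exact convexHull_mono (subset_insert _ _)

theorem X0X : X0 ⊆ X := by rw [X_eq]; exact subset_convexHull ℝ _

theorem convP : Convex ℝ P := by rw [P_eq]; exact convex_convexHull ℝ _

theorem DP : D ⊆ P ∩ {x | x 2 ≤ 1 / 2} := by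
  refine convexHull_min ?_ (convP.inter (convex_halfSpace_le (LinearMap.proj (R := ℝ) (φ := fun _ => ℝ) 2).isLinear _))
  rintro x (rfl | hx)
  · exact ⟨fun k => by simp [ap]; norm_num, by simp [ap]⟩
  · exact ⟨(X0X hx).1, by simp [(X0X hx).2]⟩

theorem mX (a b : ℝ) (ha : a = 0 ∨ a = 1) (hb : b = 0 ∨ b = 1) : ![a, b, 0] ∈ X :=
  ⟨fun k => by fin_cases k <;> rcases ha with rfl | rfl <;> rcases hb with rfl | rfl <;> simp, by simp⟩

theorem apD : ap ∈ D := subset_convexHull ℝ _ (mem_insert _ _)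

theorem intD : (interior D).Nonempty := by
  have hne : D.Nonempty := ⟨_, apD⟩
  rw [(show Convex ℝ D from convex_convexHull ℝ _).interior_nonempty_iff_affineSpan_eq_top,
    AffineSubspace.affineSpan_eq_top_iff_vectorSpan_eq_top_of_nonempty ℝ E E hne]
  by_contra h
  obtain ⟨n, hn, h⟩ := ex_fun _ h
  have h0 := XD (mX 0 0 (by simp) (by simp))
  have q1 := h _ h0 _ (XD (mX 1 0 (by simp) (by simp)))
  have q2 := h _ h0 _ (XD (mX 0 1 (by simp) (by simp)))
  have q3 := h _ h0 _ apD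
  rw [lin n ![0, 0, 0]] at q1 q2 q3
  rw [lin n ap] at q3
  simp [ap] at q1 q2 q3
  exact hn (lin0 n (by linarith) (by linarith) (by linarith))

theorem dimX : dim X = 2 := by
  have hn : (LinearMap.proj 2 : E →ₗ[ℝ] ℝ) ≠ 0 := fun h => by simpa using LinearMap.congr_fun h ![0, 0, 1]
  suffices h : vectorSpan ℝ X = LinearMap.ker (LinearMap.proj 2 : E →ₗ[ℝ] ℝ) by rw [dim, h, dim_ker _ hn]
  refine le_antisymm (vs_le X _ 0 fun x hx => hx.2) fun x hx => ?_
  have h0 := mX 0 0 (by simp) (by simp)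
  have q1 := vsub_mem_vectorSpan ℝ (mX 1 0 (by simp) (by simp)) h0
  have q2 := vsub_mem_vectorSpan ℝ (mX 0 1 (by simp) (by simp)) h0
  have hx : x 2 = 0 := hx
  convert Submodule.add_mem _ (Submodule.smul_mem _ (x 0) q1) (Submodule.smul_mem _ (x 1) q2) using 1
  ext k; fin_cases k <;> simp [hx]

theorem faceX (S : Set E) (h1 : X ⊆ S) (h2 : S ⊆ P) : IsFace S X := by
  refine ⟨fun _ => ⟨-ContinuousLinearMap.proj 2, ?_⟩, dimX⟩
  ext x
  simp only [mem_ofPred_eq, neg_apply, ContinuousLinearMap.proj_apply, neg_le_neg_iff]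
  refine ⟨fun hx => ⟨h1 hx, fun y hy => hx.2 ▸ (h2 hy 2).1⟩, fun ⟨hx, h⟩ => ⟨h2 hx, le_antisymm ?_ (h2 hx 2).1⟩⟩
  simpa using h _ (h1 (mX 0 0 (by simp) (by simp)))

theorem gdome : IsGDome D X := by
  refine ⟨⟨⟨_, X0_fin.insert ap, rfl⟩, intD⟩, faceX D XD fun x hx => (DP hx).1, fun F ⟨hF, hd⟩ _ => Or.inr ?_⟩
  obtain ⟨x, hx⟩ : F.Nonempty := by
    by_contra hne
    rw [dim_sub F 0 (by simp [not_nonempty_iff_eq_empty.1 hne])] at hd; omega
  obtain ⟨l, hl⟩ := hF ⟨x, hx⟩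
  have hx' := hl ▸ hx
  by_contra hno
  have hlt : ∀ v ∈ X0, l v < l x := fun v hv => by
    by_contra hge
    have hv' := ext01 v (X0_01 hv)
    have hvF : v ∈ F := hl ▸ ⟨XD (X0X hv), fun y hy => (hx'.2 y hy).trans (not_lt.1 hge)⟩
    exact hno ⟨v, inter_extremePoints_subset_extremePoints_of_subset
      (fun y hy => (DP (hl ▸ hy : y ∈ {x | x ∈ D ∧ _}).1).1) ⟨hvF, hv'⟩,
      inter_extremePoints_subset_extremePoints_of_subset (fun y hy => hy.1) ⟨X0X hv, hv'⟩⟩
  have hap := hx'.2 _ apD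
  have hsub : D ⊆ {y | l y < l x ∨ y = ap} := by
    refine convexHull_min ?_ ?_
    · rintro y (rfl | hy)
      exacts [Or.inr rfl, Or.inl (hlt y hy)]
    · rintro y hy z hz a b ha hb hab
      have y1 : l y ≤ l x := by rcases hy with h | rfl; exacts [h.le, hap]
      have z1 : l z ≤ l x := by rcases hz with h | rfl; exacts [h.le, hap]
      have e : l (a • y + b • z) - l x = a * (l y - l x) + b * (l z - l x) := by
        simp only [map_add, map_smul, smul_eq_mul]; linear_combination (l x) * hab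
      rcases ha.eq_or_lt with rfl | ha'
      · rw [zero_add] at hab; simpa [hab] using hz
      rcases hb.eq_or_lt with rfl | hb'
      · rw [add_zero] at hab; simpa [hab] using hy
      rcases hy with hy | rfl
      · left; nlinarith
      rcases hz with hz | rfl
      · left; nlinarith
      · right; rw [← add_smul, hab, one_smul]
  rw [dim_sub F ap fun y hy => by
    have hy' := hl ▸ hy
    exact (hsub hy'.1).resolve_left (not_lt.2 (hy'.2 x hx'.1))] at hd
  omega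

theorem edge (e : Set E) (he : IsEdge X e) : ∃ s : ℝ, (s = 0 ∨ s = 1) ∧
    ((![s, 0, 0] ∈ e ∧ ![s, 1, 0] ∈ e) ∨ (![0, s, 0] ∈ e ∧ ![1, s, 0] ∈ e)) := by
  obtain ⟨he, hd⟩ := he
  obtain ⟨x, hx⟩ : e.Nonempty := by
    by_contra hne
    rw [dim_sub e 0 (by simp [not_nonempty_iff_eq_empty.1 hne])] at hd; omega
  obtain ⟨m, hm⟩ := he ⟨x, hx⟩
  obtain ⟨α, β, h⟩ : ∃ α β : ℝ, ∀ y ∈ X, m y = y 0 * α + y 1 * β :=
    ⟨_, _, fun y hy => by have := lin m.toLinearMap y; rw [hy.2, zero_mul, add_zero] at this; exact this⟩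
  obtain ⟨s, hs, s1⟩ : ∃ s : ℝ, (s = 0 ∨ s = 1) ∧ ∀ u ∈ Icc (0 : ℝ) 1, u * α ≤ s * α ∧ (α ≠ 0 → u * α = s * α → u = s) := by
    by_cases ha : 0 ≤ α
    · exact ⟨1, by simp, fun u hu => ⟨by nlinarith [hu.2], fun a b => mul_right_cancel₀ a b⟩⟩
    · exact ⟨0, by simp, fun u hu => ⟨by nlinarith [hu.1], fun a b => mul_right_cancel₀ a b⟩⟩
  obtain ⟨t, ht, t1⟩ : ∃ s : ℝ, (s = 0 ∨ s = 1) ∧ ∀ u ∈ Icc (0 : ℝ) 1, u * β ≤ s * β ∧ (β ≠ 0 → u * β = s * β → u = s) := by
    by_cases ha : 0 ≤ β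
    · exact ⟨1, by simp, fun u hu => ⟨by nlinarith [hu.2], fun a b => mul_right_cancel₀ a b⟩⟩
    · exact ⟨0, by simp, fun u hu => ⟨by nlinarith [hu.1], fun a b => mul_right_cancel₀ a b⟩⟩
  have mem : ∀ y ∈ X, y 0 * α + y 1 * β = s * α + t * β → y ∈ e := fun y hy e1 =>
    hm ▸ ⟨hy, fun z hz => by
      rw [h y hy, h z hz, e1]; exact add_le_add (s1 _ (hz.1 0)).1 (t1 _ (hz.1 1)).1⟩
  by_cases hb : β = 0
  · exact ⟨s, hs, Or.inl ⟨mem _ (mX _ _ hs (by simp)) (by simp [hb]), mem _ (mX _ _ hs (by simp)) (by simp [hb])⟩⟩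
  by_cases ha : α = 0
  · exact ⟨t, ht, Or.inr ⟨mem _ (mX _ _ (by simp) ht) (by simp [ha]), mem _ (mX _ _ (by simp) ht) (by simp [ha])⟩⟩
  rw [dim_sub e ![s, t, 0] fun y hy => by
    have hy' := hm ▸ hy
    have q := hy'.2 _ (mX s t hs ht)
    rw [h _ (mX s t hs ht), h y hy'.1] at q
    simp only [Matrix.cons_val_zero, Matrix.cons_val_one] at q
    have a1 := s1 _ (hy'.1.1 0)
    have a2 := t1 _ (hy'.1.1 1)
    have b1 := a1.2 ha (by linarith [a1.1, a2.1])
    have b2 := a2.2 hb (by linarith [a1.1, a2.1])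
    show y = _
    ext k; fin_cases k <;> simp [b1, b2, hy'.1.2]] at hd
  omega

theorem nostep (P' : Set E) : ¬ Step X D P P' := by
  rintro ⟨l, c, hl, ⟨e, he, hc⟩, hD, hQ, -⟩
  have hle : ∀ x ∈ D, l x ≤ c := fun x hx => by
    have h1 : x ∈ closure (interior D) := by
      rw [(show Convex ℝ D from convex_convexHull ℝ _).closure_interior_eq_closure_of_nonempty_interior intD]
      exact subset_closure hx
    exact closure_minimal (t := {x | l x ≤ c}) (fun y hy => (hD y hy).le)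
      (isClosed_le l.continuous_of_finiteDimensional continuous_const) h1
  have hap := hle _ apD
  rw [lin] at hap
  simp only [ap] at hap
  obtain ⟨s, hs, ⟨h1, h2⟩ | ⟨h1, h2⟩⟩ := edge e he
  · have q1 := hc _ h1
    have q2 := hc _ h2
    have q3 := hle _ (XD (mX (1 - s) 0 (by rcases hs with rfl | rfl <;> simp) (by simp)))
    rw [lin] at q1 q2 q3
    simp at q1 q2 q3
    have z : l ![0, 1, 0] = 0 := by linarith
    refine nopyr 0 1 (by simp) s hs (l ![1, 0, 0]) (l ![0, 0, 1]) (fun h => hl (lin0 l h.1 z h.2)) (by linarith)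
      (by linarith) ?_
    convert hQ using 2
    ext x
    simp only [mem_ofPred_eq]
    rw [lin l x, z, ← q1]
    exact ⟨fun h => by linarith, fun h => by linarith⟩
  · have q1 := hc _ h1
    have q2 := hc _ h2
    have q3 := hle _ (XD (mX 0 (1 - s) (by simp) (by rcases hs with rfl | rfl <;> simp)))
    rw [lin] at q1 q2 q3
    simp at q1 q2 q3
    have z : l ![1, 0, 0] = 0 := by linarith
    refine nopyr 1 0 (by simp) s hs (l ![0, 1, 0]) (l ![0, 0, 1]) (fun h => hl (lin0 l z h.1 h.2)) (by linarith)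
      (by linarith) ?_
    convert hQ using 2
    ext x
    simp only [mem_ofPred_eq]
    rw [lin l x, z, ← q1]
    exact ⟨fun h => by linarith, fun h => by linarith⟩

theorem result : ∃ P X D : Set E, IsPolyhedron P ∧ IsFace P X ∧ IsGDome D X ∧ D ⊆ P ∧ D ≠ P ∧
    (∀ P', ¬ Step X D P P') ∧ ¬ Relation.ReflTransGen (Step X D) P D := by
  have hne : D ≠ P := fun h => by
    have : (fun _ => 1 : E) ∈ D := h ▸ fun k => by simp
    have := (DP this).2
    simp at this; norm_num at this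
  refine ⟨P, X, D, ⟨⟨_, Set.Finite.pi fun _ => by simp, P_eq⟩, intD.mono (interior_mono fun x hx => (DP hx).1)⟩,
    faceX P (fun x hx => hx.1) subset_rfl, gdome, fun x hx => (DP hx).1, hne, nostep, fun h => ?_⟩
  rcases h.cases_head with h | ⟨P', h, -⟩
  · exact hne h.symm
  · exact nostep P' h

end Pool.Agent.Results.MP_3a21c3_co.Cube
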